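import Pool.Agent.P8H78.CF.Maj
import Pool.Agent.H373R2.NB.Weyl

/-!
# Project CF: the package TT
-/

set_option autoImplicit false

namespace Pool.Agent.P8H78.CF

open Finset
open Pool.Agent.P8H14.CF
open Pool.Agent.Helper602.MK (ee)
open Pool.Agent.Helper602.MK.N_J5b (ee_add ee_zero ee_conj norm_ee KD KD_far ee_int ee_nat_mul)

lemma e_add_int (x : ℝ) (n : ℤ) : e (x + n) = e x := by rw [e_add, e_int, mul_one]

lemma T_int (x0 x : ℕ) (α : ℝ) (n : ℤ) : T x0 x (α + n) = T x0 x α := by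
  unfold T
  refine sum_congr rfl fun k _ => ?_
  have : (α + n) * ((F k : ℕ) : ℝ) = α * (F k : ℕ) + ((n * (F k : ℕ) : ℤ) : ℝ) := by
    push_cast
    ring
  rw [this, e_add_int]

lemma V_int (x0 x : ℕ) (β : ℝ) (n : ℤ) : V x0 x (β + n) = V x0 x β := by
  unfold V
  refine sum_congr rfl fun k _ => ?_
  have : (β + n) * (k : ℝ) = β * k + ((n * (k : ℕ) : ℤ) : ℝ) := by
    push_cast
    ring
  rw [this, e_add_int]

lemma T_norm (x0 x : ℕ) (α : ℝ) : ‖T x0 x α‖ ≤ x := by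
  unfold T
  refine (norm_sum_le _ _).trans ?_
  rw [sum_congr rfl fun k _ => norm_e _, sum_const, Nat.card_Ioc, nsmul_eq_mul, mul_one]
  exact_mod_cast Nat.sub_le _ _

lemma V_norm (x0 x : ℕ) (h : x0 ≤ x) (β : ℝ) : ‖V x0 x β‖ ≤ x := by
  unfold V
  refine (norm_sum_le _ _).trans ?_
  have h1 : ∀ k ∈ Ico (F x0) (F x), ‖(wt k : ℂ) * e (β * k)‖ = wt k := by
    intro k _
    rw [norm_mul, norm_e, mul_one, Complex.norm_real, Real.norm_of_nonneg (wt_nonneg k)]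
  rw [sum_congr rfl h1, sum_wt (F_mono h), rt_F, rt_F]
  have : (0 : ℝ) ≤ x0 := Nat.cast_nonneg _
  linarith

lemma G_norm {q : ℕ} (hq : 1 ≤ q) (a : ℕ) : ‖G a q / q‖ ≤ 1 := by
  have hqp : (0 : ℝ) < q := by exact_mod_cast hq
  rw [norm_div, Complex.norm_natCast, div_le_one hqp]
  unfold G
  refine (norm_sum_le _ _).trans ?_
  rw [sum_congr rfl fun b _ => norm_e _, sum_const, card_range, nsmul_eq_mul, mul_one]

/-- the fractions -/
def PP (Q : ℕ) : Finset (Σ _ : ℕ, ℕ) := (Icc 1 Q).sigma rr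

lemma mem_PP {Q : ℕ} {p : Σ _ : ℕ, ℕ} : p ∈ PP Q ↔ (1 ≤ p.1 ∧ p.1 ≤ Q) ∧ p.2 < p.1 ∧ p.2.Coprime p.1 := by
  unfold PP rr
  rw [mem_sigma, mem_Icc, mem_filter, mem_range]

/-- a term of the model -/
noncomputable def tm (x0 x : ℕ) (α : ℝ) (p : Σ _ : ℕ, ℕ) : ℂ :=
  G p.2 p.1 / p.1 * V x0 x (α - p.2 / p.1)

lemma TM_eq (Q x0 x : ℕ) (α : ℝ) : TM Q x0 x α = ∑ p ∈ PP Q, tm x0 x α p := by
  unfold TM PP tm
  rw [sum_sigma]

lemma card_PP (Q : ℕ) : ((PP Q).card : ℝ) ≤ (Q : ℝ) ^ 2 := by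
  unfold PP
  rw [card_sigma]
  have h : ∑ q ∈ Icc 1 Q, (rr q).card ≤ ∑ q ∈ Icc 1 Q, Q := by
    refine sum_le_sum fun q hq => ?_
    rw [mem_Icc] at hq
    refine (card_filter_le _ _).trans ?_
    rw [card_range]
    exact hq.2
  rw [sum_const, Nat.card_Icc, Nat.add_sub_cancel, smul_eq_mul] at h
  have h2 : ((∑ q ∈ Icc 1 Q, (rr q).card : ℕ) : ℝ) ≤ ((Q * Q : ℕ) : ℝ) := by exact_mod_cast h
  rw [sq]
  exact_mod_cast h2

/-- different fractions are far apart -/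
lemma sep {Q : ℕ} {p p' : Σ _ : ℕ, ℕ} (hp : p ∈ PP Q) (hp' : p' ∈ PP Q) (hne : p ≠ p') (n : ℤ) :
    1 / (Q : ℝ) ^ 2 ≤ |(p.2 : ℝ) / p.1 - p'.2 / p'.1 - n| := by
  obtain ⟨q, a⟩ := p
  obtain ⟨q', a'⟩ := p'
  rw [mem_PP] at hp hp'
  obtain ⟨⟨h1, h2⟩, h3, h4⟩ := hp
  obtain ⟨⟨k1, k2⟩, k3, k4⟩ := hp'
  simp only at h1 h2 h3 h4 k1 k2 k3 k4 ⊢
  have hq : (0 : ℝ) < q := by exact_mod_cast h1
  have hq' : (0 : ℝ) < q' := by exact_mod_cast k1
  have e1 : (a : ℝ) / q - a' / q' - n = (((a : ℤ) * q' - a' * q - n * (q * q') : ℤ) : ℝ) / (q * q') := by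
    push_cast
    field_simp
  have hne0 : ((a : ℤ) * q' - a' * q - n * (q * q') : ℤ) ≠ 0 := by
    intro h0
    apply hne
    have e2 : (a : ℤ) * q' = q * (a' + n * q') := by linear_combination h0
    have e3 : (a' : ℤ) * q = q' * (a - n * q) := by linear_combination -h0
    have c1 : IsCoprime (q : ℤ) (a : ℤ) := by
      rw [Nat.isCoprime_iff_coprime]
      exact h4.symm
    have c2 : IsCoprime (q' : ℤ) (a' : ℤ) := by
      rw [Nat.isCoprime_iff_coprime]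
      exact k4.symm
    have d1 : (q : ℤ) ∣ q' := c1.dvd_of_dvd_mul_left ⟨_, e2⟩
    have d2 : (q' : ℤ) ∣ q := c2.dvd_of_dvd_mul_left ⟨_, e3⟩
    have hqq : q = q' := Nat.dvd_antisymm (by exact_mod_cast d1) (by exact_mod_cast d2)
    subst hqq
    have hq0 : (q : ℤ) ≠ 0 := by
      have : q ≠ 0 := by omega
      exact_mod_cast this
    have e4 : (a : ℤ) = a' + n * q := by
      have : (q : ℤ) * a = q * (a' + n * q) := by linear_combination e2
      exact mul_left_cancel₀ hq0 this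
    have e5 : (a : ℤ) ≡ a' [ZMOD q] := by
      rw [e4]
      exact (Int.ModEq.refl _).add_right_cancel' 0 |>.trans (by
        show (a' : ℤ) + n * q ≡ a' [ZMOD q]
        exact Int.add_mul_modulus_modEq_iff.2 (Int.ModEq.refl _))
    have e6 : a ≡ a' [MOD q] := (Int.natCast_modEq_iff).1 e5
    have e7 : a = a' := Nat.ModEq.eq_of_lt_of_lt e6 h3 k3
    rw [e7]
  rw [e1, abs_div, abs_of_pos (mul_pos hq hq')]
  have hi : (1 : ℝ) ≤ |(((a : ℤ) * q' - a' * q - n * (q * q') : ℤ) : ℝ)| := by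
    rw [← Int.cast_abs]
    exact_mod_cast Int.one_le_abs hne0
  have hQQ : (q : ℝ) * q' ≤ (Q : ℝ) ^ 2 := by
    rw [sq]
    exact mul_le_mul (by exact_mod_cast h2) (by exact_mod_cast k2) hq'.le (by positivity)
  exact div_le_div₀ (by linarith) hi (mul_pos hq hq') hQQ

/-- the terms which are far from `α` -/
lemma far_sum {Q x0 x : ℕ} (hQ : 1 ≤ Q) (hx0 : 1 ≤ x0) (hx : x0 ≤ x) (α : ℝ)
    (P : Finset (Σ _ : ℕ, ℕ)) (hP : P ⊆ PP Q)
    (hfar : ∀ p ∈ P, ∀ n : ℤ, 1 / (2 * (Q : ℝ) ^ 2) ≤ |α - p.2 / p.1 - n|) :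
    ‖∑ p ∈ P, tm x0 x α p‖ ≤ 2 * (Q : ℝ) ^ 4 / x0 := by
  have hQp : (0 : ℝ) < Q := by exact_mod_cast hQ
  have hx0p : (0 : ℝ) < x0 := by exact_mod_cast hx0
  have h1 : ∀ p ∈ P, ‖tm x0 x α p‖ ≤ 2 * (Q : ℝ) ^ 2 / x0 := by
    intro p hp
    unfold tm
    rw [norm_mul]
    have h2 := vb x0 x hx0 hx (α - p.2 / p.1) (1 / (2 * (Q : ℝ) ^ 2)) (by positivity) (hfar p hp)
    have h3 := G_norm (mem_PP.1 (hP hp)).1.1 p.2
    calc _ ≤ 1 * (1 / (x0 * (1 / (2 * (Q : ℝ) ^ 2)))) := mul_le_mul h3 h2 (norm_nonneg _) zero_le_one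
      _ = 2 * (Q : ℝ) ^ 2 / x0 := by field_simp
  refine (norm_sum_le _ _).trans ((sum_le_sum h1).trans ?_)
  rw [sum_const, nsmul_eq_mul]
  have h4 : (P.card : ℝ) ≤ (Q : ℝ) ^ 2 :=
    le_trans (by exact_mod_cast card_le_card hP) (card_PP Q)
  calc (P.card : ℝ) * (2 * (Q : ℝ) ^ 2 / x0) ≤ (Q : ℝ) ^ 2 * (2 * (Q : ℝ) ^ 2 / x0) :=
        mul_le_mul_of_nonneg_right h4 (by positivity)
    _ = 2 * (Q : ℝ) ^ 4 / x0 := by ring

lemma Ph2 (α : ℝ) : Pool.Agent.H373R2.NB.Ph 2 (2 * α) (fun n => α * (F n : ℕ)) := by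
  intro h h' n
  unfold F
  push_cast
  ring

/-- the bound for `T` far from the major arcs -/
lemma caseB {c m : ℕ} (hc : 1 ≤ c) (hIW : ∀ (N : ℕ) (u α : ℝ) (φ : ℕ → ℝ), 1 ≤ N → 1 ≤ u →
      Pool.Agent.H373R2.NB.Ph 2 α φ →
      (N : ℝ) ≤ u * ‖∑ n ∈ range N, ee (φ n)‖ →
      ∃ q : ℕ, 1 ≤ q ∧ (q : ℝ) ≤ c * u ^ m ∧ ∃ a : ℤ, |q * α - a| ≤ c * u ^ m / (N : ℝ) ^ 2)
    {Q x0 x : ℕ} (hQ : 1 ≤ Q) (hx0 : 1 ≤ x0) (hx : x0 ≤ x) (α : ℝ) (v : ℝ) (hv : 4 ≤ v)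
    (hvQ : 2 * c * v ^ (m + 2) = Q)
    (hfar : ∀ p ∈ PP Q, ∀ n : ℤ, (Q : ℝ) / (x : ℝ) ^ 2 < |α - p.2 / p.1 - n|) :
    ‖T x0 x α‖ ≤ 4 * x / v := by
  by_contra hcon
  have hcon' := not_le.1 hcon
  have hx1 : 1 ≤ x := hx0.trans hx
  have hxp : (0 : ℝ) < x := by exact_mod_cast hx1
  have hv0 : 0 < v := by linarith
  have hc0 : (1 : ℝ) ≤ c := by exact_mod_cast hc
  obtain ⟨S, hS⟩ : ∃ S : ℕ → ℂ, S = fun y => ∑ n ∈ range y, e (α * (F n : ℕ)) := ⟨_, rfl⟩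
  have hTS : T x0 x α = S (x + 1) - S (x0 + 1) := by
    rw [hS]
    unfold T
    have h1 : Ioc x0 x = Ico (x0 + 1) (x + 1) := by
      ext n
      simp only [mem_Ioc, mem_Ico]
      omega
    rw [h1, sum_Ico_eq_sub _ (by omega)]
  have hex : ∃ y, 1 ≤ y ∧ y ≤ x + 1 ∧ 2 * x / v < ‖S y‖ := by
    by_contra hno
    push Not at hno
    have h1 := hno (x + 1) (by omega) le_rfl
    have h2 := hno (x0 + 1) (by omega) (by omega)
    have h3 : ‖T x0 x α‖ ≤ ‖S (x + 1)‖ + ‖S (x0 + 1)‖ := by rw [hTS]; exact norm_sub_le _ _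
    have h4 : 2 * x / v + 2 * x / v = 4 * x / v := by ring
    linarith
  obtain ⟨y, hy1, hyx, hSy⟩ := hex
  have hyp : (0 : ℝ) < y := by exact_mod_cast hy1
  have hyx' : (y : ℝ) ≤ 2 * x := by
    have h1 : (y : ℝ) ≤ x + 1 := by exact_mod_cast hyx
    have h2 : (1 : ℝ) ≤ x := by exact_mod_cast hx1
    linarith
  have hSn : ‖S y‖ ≤ y := by
    rw [hS]
    refine (norm_sum_le _ _).trans ?_
    rw [sum_congr rfl fun k _ => norm_e _, sum_const, card_range, nsmul_eq_mul, mul_one]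
  have hvS : 2 * x < v * ‖S y‖ := by
    rw [div_lt_iff₀ hv0] at hSy
    linarith
  obtain ⟨q', hq'1, hq'2, a', ha'⟩ := hIW y v (2 * α) (fun n => α * (F n : ℕ)) hy1 (by linarith) (Ph2 α)
    (by
      have : ∑ n ∈ range y, ee (α * (F n : ℕ)) = S y := by rw [hS]; rfl
      rw [this]
      linarith)
  have hyx2 : (x : ℝ) ^ 2 * 4 ≤ v ^ 2 * (y : ℝ) ^ 2 := by
    have h1 : 2 * (x : ℝ) ≤ v * y := by
      have := mul_le_mul_of_nonneg_left hSn hv0.le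
      linarith
    have h2 := mul_self_le_mul_self (by positivity) h1
    nlinarith
  have hq'p : (0 : ℝ) < q' := by exact_mod_cast hq'1
  -- the fraction
  have hsmall : |α - (a' : ℝ) / ((2 * q' : ℕ) : ℝ)| ≤ c * v ^ (m + 2) / (x : ℝ) ^ 2 := by
    have e1 : α - (a' : ℝ) / ((2 * q' : ℕ) : ℝ) = (q' * (2 * α) - a') / (2 * q') := by
      push_cast
      field_simp
    rw [e1, abs_div, abs_of_pos (by positivity : (0 : ℝ) < 2 * q'), div_le_div_iff₀ (by positivity) (by positivity)]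
    rw [le_div_iff₀ (by positivity)] at ha'
    have h1 : |q' * (2 * α) - (a' : ℝ)| * (x : ℝ) ^ 2 * 4 ≤ c * v ^ m * v ^ 2 := by
      calc |q' * (2 * α) - (a' : ℝ)| * (x : ℝ) ^ 2 * 4 = |q' * (2 * α) - (a' : ℝ)| * ((x : ℝ) ^ 2 * 4) := by ring
        _ ≤ |q' * (2 * α) - (a' : ℝ)| * (v ^ 2 * (y : ℝ) ^ 2) :=
            mul_le_mul_of_nonneg_left hyx2 (abs_nonneg _)
        _ = |q' * (2 * α) - (a' : ℝ)| * (y : ℝ) ^ 2 * v ^ 2 := by ring
        _ ≤ c * v ^ m * v ^ 2 := mul_le_mul_of_nonneg_right ha' (by positivity)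
    have h2 : (1 : ℝ) ≤ q' := by exact_mod_cast hq'1
    have h3 : 0 ≤ |q' * (2 * α) - (a' : ℝ)| * (x : ℝ) ^ 2 := by positivity
    have h4 : (c : ℝ) * v ^ (m + 2) = c * v ^ m * v ^ 2 := by ring
    rw [h4]
    have h5 : 0 ≤ (c : ℝ) * v ^ m * v ^ 2 := by positivity
    nlinarith
  -- reduce the fraction
  obtain ⟨r, hr⟩ : ∃ r : ℚ, r = (a' : ℚ) / ((2 * q' : ℕ) : ℚ) := ⟨_, rfl⟩
  have hrR : ((r : ℚ) : ℝ) = (a' : ℝ) / ((2 * q' : ℕ) : ℝ) := by
    rw [hr]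
    push_cast
    rfl
  have hden : r.den ∣ 2 * q' := by
    have h1 : ((r.den : ℕ) : ℤ) ∣ ((2 * q' : ℕ) : ℤ) := by
      have h2 : r = Rat.divInt a' ((2 * q' : ℕ) : ℤ) := by
        rw [hr, Rat.divInt_eq_div]
        push_cast
        rfl
      rw [h2]
      exact Rat.den_dvd a' ((2 * q' : ℕ) : ℤ)
    exact_mod_cast h1
  have hdenpos : 0 < r.den := r.pos
  have hdenle : r.den ≤ 2 * q' := Nat.le_of_dvd (by omega) hden
  have hdenQ : r.den ≤ Q := by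
    have h1 : ((2 * q' : ℕ) : ℝ) ≤ Q := by
      push_cast
      rw [← hvQ]
      have h2 : (c : ℝ) * v ^ m ≤ c * v ^ (m + 2) :=
        mul_le_mul_of_nonneg_left (pow_le_pow_right₀ (by linarith) (by omega)) (by linarith)
      linarith
    have h3 : 2 * q' ≤ Q := by exact_mod_cast h1
    exact hdenle.trans h3
  obtain ⟨a, ha⟩ : ∃ a : ℕ, (a : ℤ) = r.num % r.den := by
    refine ⟨(r.num % r.den).toNat, Int.toNat_of_nonneg (Int.emod_nonneg _ ?_)⟩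
    exact_mod_cast hdenpos.ne'
  have halt : a < r.den := by
    have h1 : (a : ℤ) < r.den := by
      rw [ha]
      exact Int.emod_lt_of_pos _ (by exact_mod_cast hdenpos)
    exact_mod_cast h1
  have hacop : a.Coprime r.den := by
    have h1 : IsCoprime (a : ℤ) (r.den : ℤ) := by
      have h2 : IsCoprime r.num (r.den : ℤ) := Int.isCoprime_iff_gcd_eq_one.2 r.reduced
      have h3 : (a : ℤ) = r.num + r.den * (-(r.num / r.den)) := by
        rw [ha]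
        have := Int.emod_add_mul_ediv r.num r.den
        linear_combination this
      rw [h3]
      exact h2.add_mul_left_left _
    exact Nat.isCoprime_iff_coprime.1 h1
  have hmem : (⟨r.den, a⟩ : Σ _ : ℕ, ℕ) ∈ PP Q := by
    rw [mem_PP]
    exact ⟨⟨hdenpos, hdenQ⟩, halt, hacop⟩
  have h1 := hfar _ hmem (r.num / r.den)
  simp only at h1
  have h2 : (r : ℝ) = (a : ℝ) / (r.den : ℕ) + ((r.num / r.den : ℤ) : ℝ) := by
    have h3 : (r : ℝ) = (r.num : ℝ) / (r.den : ℕ) := by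
      exact_mod_cast (Rat.cast_def r (K := ℝ))
    have h4 : (r.num : ℝ) = (a : ℝ) + (r.den : ℝ) * ((r.num / r.den : ℤ) : ℝ) := by
      have h5 := Int.emod_add_mul_ediv r.num r.den
      rw [← ha] at h5
      exact_mod_cast h5.symm
    have hd0 : (r.den : ℝ) ≠ 0 := by exact_mod_cast hdenpos.ne'
    rw [h3, h4]
    field_simp
  have h3 : α - (a : ℝ) / (r.den : ℕ) - ((r.num / r.den : ℤ) : ℝ) = α - (r : ℝ) := by
    rw [h2]
    ring
  rw [h3, hrR] at h1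
  have h4 : c * v ^ (m + 2) / (x : ℝ) ^ 2 ≤ (Q : ℝ) / (x : ℝ) ^ 2 := by
    refine div_le_div_of_nonneg_right ?_ (by positivity)
    rw [← hvQ]
    have : 0 ≤ (c : ℝ) * v ^ (m + 2) := by positivity
    linarith
  linarith

/-- TT -/
theorem tt : S_TT := by
  obtain ⟨C₁, hC₁, hmaj⟩ := maj
  obtain ⟨c, m, hc, hIW⟩ := Pool.Agent.H373R2.NB.IW_all 2 (by norm_num)
  have hc0 : (1 : ℝ) ≤ c := by exact_mod_cast hc
  obtain ⟨κ, hκ⟩ : ∃ κ : ℝ, κ = 1 / ((m : ℝ) + 2) := ⟨_, rfl⟩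
  have hκ0 : 0 < κ := by rw [hκ]; positivity
  have hκ1 : κ ≤ 1 := by
    rw [hκ, div_le_one (by positivity)]
    have : (0 : ℝ) ≤ m := Nat.cast_nonneg _
    linarith
  refine ⟨κ, 2 * C₁ + 8 * c + 5, hκ0, by positivity, fun x0 x Q hQ hx0 hx hQx α => ?_⟩
  have hx1 : 1 ≤ x := hx0.trans hx
  have hxp : (0 : ℝ) < x := by exact_mod_cast hx1
  have hx0p : (0 : ℝ) < x0 := by exact_mod_cast hx0
  have hQ1 : (1 : ℝ) ≤ Q := by exact_mod_cast hQ
  have hQp : (0 : ℝ) < Q := by linarith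
  obtain ⟨z, hz⟩ : ∃ z : ℝ, z = (Q : ℝ) ^ κ := ⟨_, rfl⟩
  have hz1 : 1 ≤ z := by rw [hz]; exact Real.one_le_rpow hQ1 hκ0.le
  have hzQ : z ≤ Q := by
    rw [hz]
    calc (Q : ℝ) ^ κ ≤ (Q : ℝ) ^ (1 : ℝ) := Real.rpow_le_rpow_of_exponent_le hQ1 hκ1
      _ = Q := Real.rpow_one _
  have hz0 : 0 < z := by linarith
  obtain ⟨R, hR⟩ : ∃ R : ℝ, R = (x : ℝ) ^ 2 / (x0 * z) := ⟨_, rfl⟩
  rw [← hz, ← hR]
  have hxx0 : (x0 : ℝ) ≤ x := by exact_mod_cast hx
  have hRx : (x : ℝ) / z ≤ R := by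
    rw [hR, div_le_div_iff₀ hz0 (by positivity)]
    have : (x : ℝ) * (x0 * z) ≤ x * (x * z) :=
      mul_le_mul_of_nonneg_left (mul_le_mul_of_nonneg_right hxx0 hz0.le) hxp.le
    nlinarith
  have hR0 : 0 ≤ R := by rw [hR]; positivity
  have hQx' : (Q : ℝ) ^ 6 ≤ x := by exact_mod_cast hQx
  have hQR : (Q : ℝ) ^ 5 ≤ R := by
    refine le_trans ?_ hRx
    rw [le_div_iff₀ hz0]
    calc (Q : ℝ) ^ 5 * z ≤ (Q : ℝ) ^ 5 * Q := mul_le_mul_of_nonneg_left hzQ (by positivity)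
      _ = (Q : ℝ) ^ 6 := by ring
      _ ≤ x := hQx'
  have hfarR : 2 * (Q : ℝ) ^ 4 / x0 ≤ 2 * R := by
    rw [hR]
    have h1 : (Q : ℝ) ^ 4 * z ≤ (x : ℝ) ^ 2 := by
      have h2 : (1 : ℝ) ≤ x := by exact_mod_cast hx1
      calc (Q : ℝ) ^ 4 * z ≤ (Q : ℝ) ^ 4 * Q := mul_le_mul_of_nonneg_left hzQ (by positivity)
        _ = (Q : ℝ) ^ 5 * 1 := by ring
        _ ≤ (Q : ℝ) ^ 5 * Q := mul_le_mul_of_nonneg_left hQ1 (by positivity)
        _ = (Q : ℝ) ^ 6 := by ring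
        _ ≤ x := hQx'
        _ ≤ (x : ℝ) ^ 2 := by nlinarith
    rw [← mul_div_assoc, div_le_div_iff₀ hx0p (by positivity)]
    nlinarith
  rcases Nat.lt_or_ge Q 2 with hQ2 | hQ2
  · -- `Q = 1`
    have hQe : Q = 1 := by omega
    subst hQe
    have hz' : z = 1 := by rw [hz, Nat.cast_one, Real.one_rpow]
    have h1 : TM 1 x0 x α = tm x0 x α ⟨1, 0⟩ := by
      rw [TM_eq]
      have : PP 1 = {⟨1, 0⟩} := by
        ext ⟨q, a⟩
        rw [mem_PP, mem_singleton]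
        constructor
        · rintro ⟨⟨h1, h2⟩, h3, h4⟩
          simp only at h1 h2 h3
          have e1 : q = 1 := by omega
          subst e1
          have e2 : a = 0 := by omega
          subst e2
          rfl
        · intro h
          cases h
          exact ⟨⟨le_rfl, le_rfl⟩, by norm_num, by norm_num⟩
      rw [this, sum_singleton]
    have h2 : ‖tm x0 x α ⟨1, 0⟩‖ ≤ x := by
      unfold tm
      rw [norm_mul]
      calc _ ≤ 1 * (x : ℝ) := mul_le_mul (G_norm le_rfl 0) (V_norm x0 x hx _) (norm_nonneg _) zero_le_one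
        _ = x := one_mul _
    have h3 : ‖T x0 x α - TM 1 x0 x α‖ ≤ 2 * x := by
      refine (norm_sub_le _ _).trans ?_
      rw [h1]
      have := T_norm x0 x α
      linarith
    rw [hz', div_one] at hRx
    refine h3.trans ?_
    nlinarith
  by_cases hA : ∃ p ∈ PP Q, ∃ n : ℤ, |α - p.2 / p.1 - n| ≤ (Q : ℝ) / (x : ℝ) ^ 2
  · -- case A
    obtain ⟨p, hp, n, hpn⟩ := hA
    obtain ⟨β, hβ⟩ : ∃ β : ℝ, β = α - p.2 / p.1 - n := ⟨_, rfl⟩
    rw [← hβ] at hpn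
    have hp' := mem_PP.1 hp
    have e1 : T x0 x α = T x0 x ((p.2 : ℝ) / p.1 + β) := by
      have e3 : α = ((p.2 : ℝ) / p.1 + β) + n := by
        rw [hβ]
        ring
      calc T x0 x α = T x0 x (((p.2 : ℝ) / p.1 + β) + n) := congrArg _ e3
        _ = _ := T_int x0 x _ n
    have e2 : tm x0 x α p = G p.2 p.1 / p.1 * V x0 x β := by
      unfold tm
      have e3 : α - (p.2 : ℝ) / p.1 = β + n := by
        rw [hβ]
        ring
      rw [e3, V_int]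
    have h1 := hmaj x0 x p.1 p.2 hx hx1 hp'.1.1 β
    have hsplit : T x0 x α - TM Q x0 x α = (T x0 x ((p.2 : ℝ) / p.1 + β) -
        G p.2 p.1 / p.1 * V x0 x β) - ∑ p' ∈ (PP Q).erase p, tm x0 x α p' := by
      rw [TM_eq, ← add_sum_erase _ _ hp, e1, e2]
      ring
    have hsmall : (Q : ℝ) / (x : ℝ) ^ 2 ≤ 1 / (2 * (Q : ℝ) ^ 2) := by
      rw [div_le_div_iff₀ (by positivity) (by positivity)]
      have hQ2' : (2 : ℝ) ≤ Q := by exact_mod_cast hQ2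
      have h2 : (1 : ℝ) ≤ x := by exact_mod_cast hx1
      calc (Q : ℝ) * (2 * (Q : ℝ) ^ 2) = 2 * (Q : ℝ) ^ 3 := by ring
        _ ≤ Q * (Q : ℝ) ^ 3 := mul_le_mul_of_nonneg_right hQ2' (by positivity)
        _ = (Q : ℝ) ^ 4 * 1 := by ring
        _ ≤ (Q : ℝ) ^ 4 * (Q : ℝ) ^ 2 := mul_le_mul_of_nonneg_left (one_le_pow₀ hQ1) (by positivity)
        _ = (Q : ℝ) ^ 6 := by ring
        _ ≤ x := hQx'
        _ ≤ 1 * (x : ℝ) ^ 2 := by nlinarith
    have h2 := far_sum hQ hx0 hx α ((PP Q).erase p) (erase_subset _ _) (by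
      intro p' hp'' k
      rw [mem_erase] at hp''
      have h3 := sep hp hp''.2 (Ne.symm hp''.1) (k - n)
      have h4 : α - (p'.2 : ℝ) / p'.1 - k = ((p.2 : ℝ) / p.1 - p'.2 / p'.1 - ((k - n : ℤ) : ℝ)) + β := by
        rw [hβ]
        push_cast
        ring
      rw [h4]
      have h5 := abs_sub_abs_le_abs_sub ((p.2 : ℝ) / p.1 - p'.2 / p'.1 - ((k - n : ℤ) : ℝ)) (-β)
      rw [abs_neg, sub_neg_eq_add] at h5
      have h6 : 1 / (Q : ℝ) ^ 2 - 1 / (2 * (Q : ℝ) ^ 2) = 1 / (2 * (Q : ℝ) ^ 2) := by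
        field_simp
        ring
      linarith)
    rw [hsplit]
    refine (norm_sub_le _ _).trans ?_
    have hpQ : ((p.1 : ℕ) : ℝ) ≤ Q := by exact_mod_cast hp'.1.2
    have h3 : C₁ * p.1 * (1 + |β| * (x : ℝ) ^ 2) ≤ 2 * C₁ * R := by
      have h4 : |β| * (x : ℝ) ^ 2 ≤ Q := by
        rwa [le_div_iff₀ (by positivity)] at hpn
      calc C₁ * p.1 * (1 + |β| * (x : ℝ) ^ 2) ≤ C₁ * Q * (1 + Q) :=
            mul_le_mul (mul_le_mul_of_nonneg_left hpQ hC₁.le) (by linarith) (by positivity) (by positivity)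
        _ ≤ C₁ * Q * (2 * Q) := mul_le_mul_of_nonneg_left (by linarith) (by positivity)
        _ = 2 * C₁ * ((Q : ℝ) ^ 2 * 1) := by ring
        _ ≤ 2 * C₁ * ((Q : ℝ) ^ 2 * (Q : ℝ) ^ 3) :=
            mul_le_mul_of_nonneg_left (mul_le_mul_of_nonneg_left (one_le_pow₀ hQ1) (by positivity)) (by positivity)
        _ = 2 * C₁ * (Q : ℝ) ^ 5 := by ring
        _ ≤ 2 * C₁ * R := mul_le_mul_of_nonneg_left hQR (by positivity)
    have h5 := add_le_add (h1.trans h3) (h2.trans hfarR)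
    refine h5.trans ?_
    have h8 : (2 * C₁ + 8 * c + 5) * R = (2 * C₁ * R + 2 * R) + (8 * c + 3) * R := by ring
    rw [h8]
    exact le_add_of_nonneg_right (mul_nonneg (by positivity) hR0)
  · -- case B
    push Not at hA
    have hnear : ∀ p ∈ PP Q, ‖tm x0 x α p‖ ≤ R := by
      intro p hp
      unfold tm
      rw [norm_mul]
      have h2 := vb x0 x hx0 hx (α - p.2 / p.1) ((Q : ℝ) / (x : ℝ) ^ 2) (by positivity)
        (fun n => (hA p hp n).le)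
      have h3 := G_norm (mem_PP.1 hp).1.1 p.2
      calc _ ≤ 1 * (1 / (x0 * ((Q : ℝ) / (x : ℝ) ^ 2))) := mul_le_mul h3 h2 (norm_nonneg _) zero_le_one
        _ = (x : ℝ) ^ 2 / (x0 * Q) := by field_simp
        _ ≤ R := by
          rw [hR]
          refine div_le_div_of_nonneg_left (by positivity) (by positivity) ?_
          exact mul_le_mul_of_nonneg_left hzQ hx0p.le
    classical
    have hTMb : ‖TM Q x0 x α‖ ≤ 3 * R := by
      rw [TM_eq, ← sum_filter_add_sum_filter_not (PP Q)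
        (fun p => ∀ n : ℤ, 1 / (2 * (Q : ℝ) ^ 2) ≤ |α - p.2 / p.1 - n|)]
      refine (norm_add_le _ _).trans ?_
      have h1 := far_sum hQ hx0 hx α ((PP Q).filter
        (fun p => ∀ n : ℤ, 1 / (2 * (Q : ℝ) ^ 2) ≤ |α - p.2 / p.1 - n|)) (filter_subset _ _)
        (fun p hp => (mem_filter.1 hp).2)
      have h2 : ((PP Q).filter
          (fun p => ¬ ∀ n : ℤ, 1 / (2 * (Q : ℝ) ^ 2) ≤ |α - p.2 / p.1 - n|)).card ≤ 1 := by
        rw [card_le_one]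
        intro p hp p' hp'
        rw [mem_filter] at hp hp'
        obtain ⟨hp, hn⟩ := hp
        obtain ⟨hp', hn'⟩ := hp'
        push Not at hn hn'
        obtain ⟨n, hn⟩ := hn
        obtain ⟨n', hn'⟩ := hn'
        by_contra hne
        have h3 := sep hp hp' hne (n' - n)
        have h4 : (p.2 : ℝ) / p.1 - p'.2 / p'.1 - ((n' - n : ℤ) : ℝ) =
            (α - p'.2 / p'.1 - n') - (α - p.2 / p.1 - n) := by
          push_cast
          ring
        rw [h4] at h3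
        have h5 := abs_sub (α - (p'.2 : ℝ) / p'.1 - n') (α - (p.2 : ℝ) / p.1 - n)
        have h6 : 1 / (2 * (Q : ℝ) ^ 2) + 1 / (2 * (Q : ℝ) ^ 2) = 1 / (Q : ℝ) ^ 2 := by
          field_simp
          ring
        linarith
      have h3 : ‖∑ p ∈ (PP Q).filter
          (fun p => ¬ ∀ n : ℤ, 1 / (2 * (Q : ℝ) ^ 2) ≤ |α - p.2 / p.1 - n|), tm x0 x α p‖ ≤ R := by
        refine (norm_sum_le _ _).trans ((sum_le_sum fun p hp =>
          hnear p (mem_filter.1 hp).1).trans ?_)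
        rw [sum_const, nsmul_eq_mul]
        have h4 : ((((PP Q).filter (fun p => ¬ ∀ n : ℤ,
          1 / (2 * (Q : ℝ) ^ 2) ≤ |α - p.2 / p.1 - n|)).card : ℕ) : ℝ) ≤ 1 := by exact_mod_cast h2
        nlinarith
      linarith
    obtain ⟨v, hv⟩ : ∃ v : ℝ, v = ((Q : ℝ) / (2 * c)) ^ κ := ⟨_, rfl⟩
    have hv0 : 0 < v := by rw [hv]; positivity
    have hTb : ‖T x0 x α‖ ≤ 4 * x / v := by
      rcases lt_or_ge v 4 with hv4 | hv4
      · refine (T_norm x0 x α).trans ?_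
        rw [le_div_iff₀ hv0]
        nlinarith
      · refine caseB hc hIW hQ hx0 hx α v hv4 ?_ (fun p hp n => hA p hp n)
        have h1 : v ^ (m + 2) = (Q : ℝ) / (2 * c) := by
          rw [hv, ← Real.rpow_natCast, ← Real.rpow_mul (by positivity), hκ]
          push_cast
          rw [one_div_mul_cancel (by positivity), Real.rpow_one]
        rw [h1]
        field_simp
    have hvz : 4 * (x : ℝ) / v ≤ 8 * c * R := by
      have h1 : v = z / (2 * c) ^ κ := by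
        rw [hv, hz, Real.div_rpow (by positivity) (by positivity)]
      have h2 : ((2 : ℝ) * c) ^ κ ≤ 2 * c := by
        calc ((2 : ℝ) * c) ^ κ ≤ (2 * c) ^ (1 : ℝ) :=
              Real.rpow_le_rpow_of_exponent_le (by linarith) hκ1
          _ = 2 * c := Real.rpow_one _
      have h3 : 4 * (x : ℝ) / v = 4 * (2 * c) ^ κ * (x / z) := by
        rw [h1]
        field_simp
      rw [h3]
      calc 4 * ((2 : ℝ) * c) ^ κ * (x / z) ≤ 4 * (2 * c) * R :=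
            mul_le_mul (mul_le_mul_of_nonneg_left h2 (by norm_num)) hRx (by positivity) (by positivity)
        _ = 8 * c * R := by ring
    refine (norm_sub_le _ _).trans ?_
    have h7 := add_le_add (hTb.trans hvz) hTMb
    refine h7.trans ?_
    have h8 : (2 * C₁ + 8 * c + 5) * R = (8 * c * R + 3 * R) + (2 * C₁ + 2) * R := by ring
    rw [h8]
    exact le_add_of_nonneg_right (mul_nonneg (by positivity) hR0)

end Pool.Agent.P8H78.CF
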