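import Pool.Agent.P8H14.CF.Stm
import Pool.Agent.Helper602.MK.J5b

/-!
# Project CF: the packages MAJ and VB
-/

set_option autoImplicit false

namespace Pool.Agent.P8H78.CF

open Finset
open Pool.Agent.P8H14.CF
open Pool.Agent.Helper602.MK (ee)
open Pool.Agent.Helper602.MK.N_J5b (ee_add ee_zero ee_conj norm_ee KD KD_far ee_int ee_nat_mul)

lemma e_eq (x : ℝ) : e x = ee x := rfl

lemma norm_e (x : ℝ) : ‖e x‖ = 1 := norm_ee x

lemma e_add (x y : ℝ) : e (x + y) = e x * e y := ee_add x y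

lemma e_int (n : ℤ) : e n = 1 := ee_int n

lemma e_lip (x y : ℝ) : ‖e x - e y‖ ≤ 2 * Real.pi * |x - y| := by
  have h1 : e x - e y = e y * (e (x - y) - 1) := by
    have : e x = e y * e (x - y) := by rw [← e_add]; congr 1; ring
    rw [this]
    ring
  rw [h1, norm_mul, norm_e, one_mul]
  have h2 : e (x - y) = Complex.exp (Complex.I * ((2 * Real.pi * (x - y) : ℝ) : ℂ)) := by
    unfold e
    congr 1
    push_cast
    ring
  rw [h2]
  refine (Real.norm_exp_I_mul_ofReal_sub_one_le).trans ?_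
  rw [Real.norm_eq_abs, abs_mul, abs_of_nonneg (by positivity : (0 : ℝ) ≤ 2 * Real.pi)]

lemma rt_F (n : ℕ) : rt ((F n : ℕ) : ℝ) = n := by
  unfold rt F
  have h1 : (((n ^ 2 + n : ℕ) : ℝ) + 1 / 4) = ((n : ℝ) + 1 / 2) ^ 2 := by
    push_cast
    ring
  rw [h1, Real.sqrt_sq (by positivity)]
  ring

lemma F_mono {m n : ℕ} (h : m ≤ n) : F m ≤ F n := by
  unfold F
  exact Nat.add_le_add (Nat.pow_le_pow_left h 2) h

lemma sum_wt {a b : ℕ} (h : a ≤ b) : ∑ k ∈ Ico a b, wt k = rt b - rt a := by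
  induction b, h using Nat.le_induction with
  | base => simp
  | succ b hb ih =>
    rw [sum_Ico_succ_top hb, ih]
    unfold wt
    push_cast
    ring

lemma wt_nonneg (k : ℕ) : 0 ≤ wt k := by
  unfold wt rt
  have := Real.sqrt_le_sqrt (show (k : ℝ) + 1 / 4 ≤ (k : ℝ) + 1 + 1 / 4 by linarith)
  linarith

/-- the smooth sum and the sum over the values -/
lemma V_approx (x0 x : ℕ) (h : x0 ≤ x) (β : ℝ) :
    ‖V x0 x β - ∑ n ∈ Ioc x0 x, e (β * (F n : ℕ))‖ ≤ 2 * Real.pi * |β| * ((F x : ℝ) - F x0) := by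
  induction x, h using Nat.le_induction with
  | base => simp [V]
  | succ x hx ih =>
    have h1 : V x0 (x + 1) β = V x0 x β + ∑ k ∈ Ico (F x) (F (x + 1)), (wt k : ℂ) * e (β * k) := by
      unfold V
      rw [sum_Ico_consecutive _ (F_mono hx) (F_mono (Nat.le_succ x))]
    have h2 : ∑ n ∈ Ioc x0 (x + 1), e (β * (F n : ℕ)) = ∑ n ∈ Ioc x0 x, e (β * (F n : ℕ)) +
        e (β * (F (x + 1) : ℕ)) := by
      rw [← sum_Ioc_succ_top (by omega)]
    have h3 : ∑ k ∈ Ico (F x) (F (x + 1)), (wt k : ℂ) = 1 := by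
      have h4 := sum_wt (F_mono (Nat.le_succ x))
      rw [rt_F, rt_F] at h4
      rw [← Complex.ofReal_sum, h4]
      push_cast
      ring
    have h5 : ‖∑ k ∈ Ico (F x) (F (x + 1)), (wt k : ℂ) * e (β * k) - e (β * (F (x + 1) : ℕ))‖ ≤
        2 * Real.pi * |β| * ((F (x + 1) : ℝ) - F x) := by
      have h6 : ∑ k ∈ Ico (F x) (F (x + 1)), (wt k : ℂ) * e (β * k) - e (β * (F (x + 1) : ℕ)) =
          ∑ k ∈ Ico (F x) (F (x + 1)), (wt k : ℂ) * (e (β * k) - e (β * (F (x + 1) : ℕ))) := by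
        simp_rw [mul_sub]
        rw [sum_sub_distrib, ← sum_mul, h3, one_mul]
      rw [h6]
      refine (norm_sum_le _ _).trans ?_
      have h7 : ∀ k ∈ Ico (F x) (F (x + 1)), ‖(wt k : ℂ) * (e (β * k) - e (β * (F (x + 1) : ℕ)))‖ ≤
          wt k * (2 * Real.pi * |β| * ((F (x + 1) : ℝ) - F x)) := by
        intro k hk
        rw [mem_Ico] at hk
        rw [norm_mul, Complex.norm_real, Real.norm_of_nonneg (wt_nonneg k)]
        refine mul_le_mul_of_nonneg_left ?_ (wt_nonneg k)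
        refine (e_lip _ _).trans ?_
        rw [← mul_sub, abs_mul, mul_assoc (2 * Real.pi)]
        refine mul_le_mul_of_nonneg_left ?_ (by positivity)
        refine mul_le_mul_of_nonneg_left ?_ (abs_nonneg _)
        have k1 : ((F x : ℕ) : ℝ) ≤ k := by exact_mod_cast hk.1
        have k2 : (k : ℝ) ≤ ((F (x + 1) : ℕ) : ℝ) := by exact_mod_cast hk.2.le
        rw [abs_le]
        constructor <;> linarith
      refine (sum_le_sum h7).trans ?_
      rw [← sum_mul]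
      have h8 := sum_wt (F_mono (Nat.le_succ x))
      rw [rt_F, rt_F] at h8
      have h9 : (((x + 1 : ℕ) : ℝ) - x) = 1 := by push_cast; ring
      rw [h9] at h8
      rw [h8, one_mul]
    rw [h1, h2]
    have h10 : V x0 x β + ∑ k ∈ Ico (F x) (F (x + 1)), (wt k : ℂ) * e (β * k) -
        (∑ n ∈ Ioc x0 x, e (β * (F n : ℕ)) + e (β * (F (x + 1) : ℕ))) =
        (V x0 x β - ∑ n ∈ Ioc x0 x, e (β * (F n : ℕ))) +
        (∑ k ∈ Ico (F x) (F (x + 1)), (wt k : ℂ) * e (β * k) - e (β * (F (x + 1) : ℕ))) := by ring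
    rw [h10]
    refine (norm_add_le _ _).trans ?_
    have h11 := add_le_add ih h5
    refine h11.trans (le_of_eq ?_)
    ring

/-- partial sums of a periodic function with mean zero -/
lemma per_bound {q : ℕ} (hq : 1 ≤ q) (h : ℕ → ℂ) (hp : ∀ n, h (n + q) = h n)
    (h0 : ∑ b ∈ range q, h b = 0) (hb : ∀ n, ‖h n‖ ≤ 2) (L s : ℕ) :
    ‖∑ i ∈ range L, h (s + i)‖ ≤ 2 * q := by
  have hz : ∀ s, ∑ i ∈ range q, h (s + i) = 0 := by
    intro s
    induction s with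
    | zero => simpa using h0
    | succ s ih =>
      have h1 : ∑ i ∈ range (q + 1), h (s + i) = ∑ i ∈ range q, h (s + i) + h (s + q) :=
        sum_range_succ _ _
      have h2 : ∑ i ∈ range (q + 1), h (s + i) = ∑ i ∈ range q, h (s + (i + 1)) + h (s + 0) :=
        sum_range_succ' _ _
      rw [h1, ih, hp, zero_add, add_zero] at h2
      have h3 : ∑ i ∈ range q, h (s + (i + 1)) = 0 := by
        have := h2
        linear_combination -h2
      rw [← h3]
      refine sum_congr rfl fun i _ => ?_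
      congr 1
      ring
  induction L using Nat.strong_induction_on generalizing s with
  | _ L ih =>
    rcases lt_or_ge L q with hL | hL
    · refine (norm_sum_le _ _).trans ?_
      refine (sum_le_sum fun i _ => hb (s + i)).trans ?_
      rw [sum_const, card_range, nsmul_eq_mul]
      have : (L : ℝ) ≤ q := by exact_mod_cast hL.le
      linarith
    · obtain ⟨L', rfl⟩ := Nat.exists_eq_add_of_le hL
      rw [sum_range_add, hz s, zero_add]
      have h1 : ∑ i ∈ range L', h (s + (q + i)) = ∑ i ∈ range L', h (s + q + i) := by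
        refine sum_congr rfl fun i _ => ?_
        rw [add_assoc]
      rw [h1]
      exact ih L' (by omega) (s + q)

/-- Abel summation -/
lemma abel_bound (h : ℕ → ℂ) (f : ℕ → ℂ) (B : ℝ) (D : ℕ → ℝ) (x0 x : ℕ) (hx : x0 ≤ x)
    (hB : ∀ y, x0 ≤ y → y ≤ x → ‖∑ n ∈ Ioc x0 y, h n‖ ≤ B)
    (hf : ∀ n, ‖f (n + 1) - f n‖ ≤ D (n + 1) - D n) (hB0 : 0 ≤ B) :
    ‖∑ n ∈ Ioc x0 x, h n * f n - (∑ n ∈ Ioc x0 x, h n) * f x‖ ≤ B * (D x - D x0) := by
  induction x, hx using Nat.le_induction with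
  | base => simp
  | succ x hx ih =>
    have ih' := ih fun y h1 h2 => hB y h1 (by omega)
    rw [sum_Ioc_succ_top (by omega), sum_Ioc_succ_top (by omega)]
    have e1 : ∑ k ∈ Ioc x0 x, h k * f k + h (x + 1) * f (x + 1) -
        (∑ k ∈ Ioc x0 x, h k + h (x + 1)) * f (x + 1) =
        (∑ k ∈ Ioc x0 x, h k * f k - (∑ k ∈ Ioc x0 x, h k) * f x) -
          (∑ k ∈ Ioc x0 x, h k) * (f (x + 1) - f x) := by ring
    rw [e1]
    refine (norm_sub_le _ _).trans ?_
    rw [norm_mul]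
    have h2 := hB x hx (Nat.le_succ x)
    have h3 := mul_le_mul h2 (hf x) (norm_nonneg _) hB0
    calc _ ≤ B * (D x - D x0) + B * (D (x + 1) - D x) := add_le_add ih' h3
      _ = B * (D (x + 1) - D x0) := by ring

/-- MAJ -/
theorem maj : S_MAJ := by
  refine ⟨64, by norm_num, fun x0 x q a hx hx1 hq β => ?_⟩
  have hq0 : (q : ℝ) ≠ 0 := by
    have : q ≠ 0 := by omega
    exact_mod_cast this
  have hqp : (0 : ℝ) < q := by
    have : 0 < q := by omega
    exact_mod_cast this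
  obtain ⟨g, hg⟩ : ∃ g : ℕ → ℂ, g = fun n => e ((a : ℝ) * (F n : ℕ) / q) := ⟨_, rfl⟩
  have hgn : ∀ n, ‖g n‖ = 1 := fun n => by rw [hg]; exact norm_e _
  have hgp : ∀ n, g (n + q) = g n := by
    intro n
    rw [hg]
    show e _ = e _
    have h1 : (a : ℝ) * (F (n + q) : ℕ) / q = (a : ℝ) * (F n : ℕ) / q +
        ((a * (2 * n + q + 1) : ℤ) : ℝ) := by
      unfold F
      push_cast
      field_simp
      ring
    rw [h1, e_add, e_int, mul_one]
  obtain ⟨M, hM⟩ : ∃ M : ℂ, M = G a q / q := ⟨_, rfl⟩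
  have hGs : ∑ b ∈ range q, g b = G a q := by rw [hg]; rfl
  have hMn : ‖M‖ ≤ 1 := by
    rw [hM, norm_div, Complex.norm_natCast, div_le_one hqp, ← hGs]
    refine (norm_sum_le _ _).trans ?_
    rw [sum_congr rfl fun b _ => hgn b, sum_const, card_range, nsmul_eq_mul, mul_one]
  obtain ⟨h, hh⟩ : ∃ h : ℕ → ℂ, h = fun n => g n - M := ⟨_, rfl⟩
  have hhp : ∀ n, h (n + q) = h n := fun n => by rw [hh]; show g (n + q) - M = g n - M; rw [hgp]
  have hh0 : ∑ b ∈ range q, h b = 0 := by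
    rw [hh, sum_sub_distrib, hGs, sum_const, card_range, nsmul_eq_mul, hM]
    have : (q : ℂ) ≠ 0 := by exact_mod_cast hq0
    field_simp
    ring
  have hhn : ∀ n, ‖h n‖ ≤ 2 := by
    intro n
    rw [hh]
    refine (norm_sub_le _ _).trans ?_
    rw [hgn]
    linarith
  have hB : ∀ y, x0 ≤ y → y ≤ x → ‖∑ n ∈ Ioc x0 y, h n‖ ≤ 2 * q := by
    intro y hy _
    have h1 := per_bound hq h hhp hh0 hhn (y - x0) (x0 + 1)
    have h2 : ∑ n ∈ Ioc x0 y, h n = ∑ i ∈ range (y - x0), h (x0 + 1 + i) := by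
      have e1 : Ioc x0 y = Ico (x0 + 1) (y + 1) := by
        ext n
        simp only [mem_Ioc, mem_Ico]
        omega
      rw [e1, sum_Ico_eq_sum_range]
      have : y + 1 - (x0 + 1) = y - x0 := by omega
      rw [this]
    rw [h2]
    exact h1
  have hT : T x0 x ((a : ℝ) / q + β) = ∑ n ∈ Ioc x0 x, g n * e (β * (F n : ℕ)) := by
    unfold T
    refine sum_congr rfl fun n _ => ?_
    rw [hg]
    show _ = e _ * e _
    rw [← e_add]
    congr 1
    ring
  have hx2 : (F x : ℝ) ≤ 2 * (x : ℝ) ^ 2 := by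
    unfold F
    push_cast
    have : (1 : ℝ) ≤ x := by exact_mod_cast hx1
    nlinarith
  have hF0 : (0 : ℝ) ≤ (F x0 : ℝ) := Nat.cast_nonneg _
  have hA := abel_bound h (fun n => e (β * (F n : ℕ))) (2 * q)
    (fun n => 2 * Real.pi * |β| * (F n : ℝ)) x0 x hx hB (fun n => by
      refine (e_lip _ _).trans (le_of_eq ?_)
      rw [← mul_sub, abs_mul, ← mul_sub, mul_assoc (2 * Real.pi)]
      have h1 : (0 : ℝ) ≤ (F (n + 1) : ℝ) - (F n : ℝ) := by
        have : ((F n : ℕ) : ℝ) ≤ (F (n + 1) : ℕ) := by exact_mod_cast F_mono (Nat.le_succ n)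
        linarith
      rw [abs_of_nonneg h1]) (by positivity)
  have hV := V_approx x0 x hx β
  have hsplit : T x0 x ((a : ℝ) / q + β) - G a q / q * V x0 x β =
      (∑ n ∈ Ioc x0 x, h n * e (β * (F n : ℕ)) - (∑ n ∈ Ioc x0 x, h n) * e (β * (F x : ℕ))) +
      (∑ n ∈ Ioc x0 x, h n) * e (β * (F x : ℕ)) -
      M * (V x0 x β - ∑ n ∈ Ioc x0 x, e (β * (F n : ℕ))) := by
    rw [hT, ← hM, hh]
    simp only [sub_mul, sum_sub_distrib, ← mul_sum]
    ring
  rw [hsplit]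
  refine (norm_sub_le _ _).trans ?_
  refine (add_le_add (norm_add_le _ _) le_rfl).trans ?_
  rw [norm_mul, norm_mul, norm_e, mul_one]
  have hpi := Real.pi_lt_four
  have hpi0 := Real.pi_pos
  have hβ := abs_nonneg β
  have h1 : ‖∑ n ∈ Ioc x0 x, h n‖ ≤ 2 * q := hB x hx le_rfl
  have hFF : (F x : ℝ) - F x0 ≤ 2 * (x : ℝ) ^ 2 := by linarith
  have hFF0 : (0 : ℝ) ≤ (F x : ℝ) - F x0 := by
    have : ((F x0 : ℕ) : ℝ) ≤ (F x : ℕ) := by exact_mod_cast F_mono hx
    linarith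
  have h2 : 2 * Real.pi * |β| * ((F x : ℝ) - F x0) ≤ 16 * (|β| * (x : ℝ) ^ 2) := by
    calc 2 * Real.pi * |β| * ((F x : ℝ) - F x0) ≤ 2 * Real.pi * |β| * (2 * (x : ℝ) ^ 2) :=
          mul_le_mul_of_nonneg_left hFF (by positivity)
      _ = 4 * Real.pi * (|β| * (x : ℝ) ^ 2) := by ring
      _ ≤ 16 * (|β| * (x : ℝ) ^ 2) := mul_le_mul_of_nonneg_right (by linarith) (by positivity)
  have h3 : ‖M‖ * ‖V x0 x β - ∑ n ∈ Ioc x0 x, e (β * (F n : ℕ))‖ ≤ 16 * (|β| * (x : ℝ) ^ 2) := by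
    calc _ ≤ 1 * (2 * Real.pi * |β| * ((F x : ℝ) - F x0)) :=
          mul_le_mul hMn hV (norm_nonneg _) zero_le_one
      _ ≤ _ := by rw [one_mul]; exact h2
  have h4 : 2 * (q : ℝ) * (2 * Real.pi * |β| * (F x : ℝ) - 2 * Real.pi * |β| * (F x0 : ℝ)) ≤
      2 * q * (16 * (|β| * (x : ℝ) ^ 2)) := by
    refine mul_le_mul_of_nonneg_left ?_ (by positivity)
    rw [← mul_sub]
    exact h2
  have hq1 : (1 : ℝ) ≤ q := by exact_mod_cast hq
  have h5 : (0 : ℝ) ≤ |β| * (x : ℝ) ^ 2 := by positivity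
  have h6 := hA.trans h4
  nlinarith [mul_le_mul_of_nonneg_right hq1 h5]

/-! ### VB -/

lemma wt_anti {a b : ℕ} (h : a ≤ b) : wt b ≤ wt a := by
  have key : ∀ k : ℕ, wt k = 1 / (√((k : ℝ) + 1 + 1 / 4) + √((k : ℝ) + 1 / 4)) := by
    intro k
    unfold wt rt
    have h1 : 0 < √((k : ℝ) + 1 + 1 / 4) + √((k : ℝ) + 1 / 4) := by positivity
    rw [eq_div_iff h1.ne']
    have h2 := Real.sq_sqrt (show 0 ≤ (k : ℝ) + 1 + 1 / 4 by positivity)
    have h3 := Real.sq_sqrt (show 0 ≤ (k : ℝ) + 1 / 4 by positivity)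
    nlinarith
  rw [key, key]
  have hab : (a : ℝ) ≤ b := by exact_mod_cast h
  refine one_div_le_one_div_of_le (by positivity) (add_le_add ?_ ?_)
  · exact Real.sqrt_le_sqrt (by linarith)
  · exact Real.sqrt_le_sqrt (by linarith)

lemma wt_F (n : ℕ) (hn : 1 ≤ n) : wt (F n) ≤ 1 / n := by
  have h1 := sum_wt (F_mono (Nat.le_succ n))
  have hn0 : (0 : ℝ) < n := by exact_mod_cast hn
  rw [le_div_iff₀ hn0]
  unfold wt
  have h2 : rt ((F n : ℕ) : ℝ) = n := rt_F n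
  rw [h2]
  unfold rt
  have h3 : √(((F n : ℕ) : ℝ) + 1 + 1 / 4) ≤ (n : ℝ) + 1 / 2 + 1 / n := by
    rw [Real.sqrt_le_left (by positivity)]
    have h4 : ((n : ℝ) + 1 / 2 + 1 / n) ^ 2 = n ^ 2 + n + 1 / 4 + 2 + 1 / n + 1 / n ^ 2 := by
      field_simp
      ring
    rw [h4]
    unfold F
    push_cast
    have h5 : (0 : ℝ) < 1 / n := by positivity
    have h6 : (0 : ℝ) < 1 / (n : ℝ) ^ 2 := by positivity
    linarith
  have h7 : (1 : ℝ) / n * n = 1 := by field_simp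
  nlinarith

/-- Abel summation with decreasing weights -/
lemma abel_dec (w : ℕ → ℝ) (z : ℕ → ℂ) (B : ℝ) (u v : ℕ) (huv : u ≤ v)
    (hw0 : ∀ k, 0 ≤ w k) (hw : ∀ k, w (k + 1) ≤ w k)
    (hB : ∀ y, u ≤ y → y ≤ v → ‖∑ k ∈ Ico u y, z k‖ ≤ B) (hB0 : 0 ≤ B) :
    ‖∑ k ∈ Ico u v, (w k : ℂ) * z k - (w v : ℂ) * ∑ k ∈ Ico u v, z k‖ ≤ B * (w u - w v) := by
  induction v, huv using Nat.le_induction with
  | base => simp
  | succ v hv ih =>
    have ih' := ih fun y h1 h2 => hB y h1 (by omega)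
    have hS := hB (v + 1) (by omega) le_rfl
    rw [sum_Ico_succ_top hv, sum_Ico_succ_top hv] at *
    have e1 : ∑ k ∈ Ico u v, (w k : ℂ) * z k + (w v : ℂ) * z v -
        (w (v + 1) : ℂ) * (∑ k ∈ Ico u v, z k + z v) =
        (∑ k ∈ Ico u v, (w k : ℂ) * z k - (w v : ℂ) * ∑ k ∈ Ico u v, z k) +
          ((w v : ℂ) - (w (v + 1) : ℂ)) * (∑ k ∈ Ico u v, z k + z v) := by ring
    rw [e1]
    refine (norm_add_le _ _).trans ?_
    rw [norm_mul]
    have h3 : ‖(w v : ℂ) - (w (v + 1) : ℂ)‖ = w v - w (v + 1) := by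
      rw [← Complex.ofReal_sub, Complex.norm_real, Real.norm_of_nonneg]
      have := hw v
      linarith
    rw [h3]
    have h4 : 0 ≤ w v - w (v + 1) := by
      have := hw v
      linarith
    calc _ ≤ B * (w u - w v) + (w v - w (v + 1)) * B :=
          add_le_add ih' (mul_le_mul_of_nonneg_left hS h4)
      _ = B * (w u - w (v + 1)) := by ring

/-- VB -/
theorem vb : S_VB := by
  intro x0 x hx0 hx β δ hδ hβ
  have hB : ∀ y, F x0 ≤ y → y ≤ F x → ‖∑ k ∈ Ico (F x0) y, e (β * k)‖ ≤ 1 / (2 * δ) := by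
    intro y hy _
    rw [sum_Ico_eq_sum_range]
    have h1 : ∑ k ∈ range (y - F x0), e (β * ((F x0 + k : ℕ) : ℝ)) =
        e (β * (F x0 : ℕ)) * ∑ k ∈ range (y - F x0), ee (k * β) := by
      rw [mul_sum]
      refine sum_congr rfl fun k _ => ?_
      rw [← e_eq, ← e_add]
      congr 1
      push_cast
      ring
    rw [h1, norm_mul, norm_e, one_mul]
    have h2 := KD_far (y - F x0) β δ hδ hβ
    unfold KD at h2
    have h3 : (1 : ℝ) / (4 * δ ^ 2) = (1 / (2 * δ)) ^ 2 := by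
      field_simp
      norm_num
    rw [h3] at h2
    exact le_of_sq_le_sq h2 (by positivity)
  have h1 := abel_dec (fun k => wt k) (fun k => e (β * k)) (1 / (2 * δ)) (F x0) (F x) (F_mono hx)
    wt_nonneg (fun k => wt_anti (Nat.le_succ k)) hB (by positivity)
  have h2 := hB (F x) (F_mono hx) le_rfl
  have hwx0 := wt_F x0 hx0
  have hx0p : (0 : ℝ) < x0 := by exact_mod_cast hx0
  have hw0 := wt_nonneg (F x)
  have hsplit : V x0 x β = (∑ k ∈ Ico (F x0) (F x), ((wt k : ℝ) : ℂ) * e (β * k) -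
      ((wt (F x) : ℝ) : ℂ) * ∑ k ∈ Ico (F x0) (F x), e (β * k)) +
      ((wt (F x) : ℝ) : ℂ) * ∑ k ∈ Ico (F x0) (F x), e (β * k) := by
    unfold V
    ring
  rw [hsplit]
  refine (norm_add_le _ _).trans ?_
  rw [norm_mul, Complex.norm_real, Real.norm_of_nonneg hw0]
  have h3 : wt (F x) * ‖∑ k ∈ Ico (F x0) (F x), e (β * k)‖ ≤ wt (F x) * (1 / (2 * δ)) :=
    mul_le_mul_of_nonneg_left h2 hw0
  have h4 : 1 / (2 * δ) * (wt (F x0) - wt (F x)) + wt (F x) * (1 / (2 * δ)) =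
      1 / (2 * δ) * wt (F x0) := by ring
  refine (add_le_add h1 h3).trans ?_
  rw [h4]
  have h5 : 1 / (2 * δ) * wt (F x0) ≤ 1 / (2 * δ) * (1 / x0) :=
    mul_le_mul_of_nonneg_left hwx0 (by positivity)
  refine h5.trans ?_
  have h6 : 1 / (2 * δ) * (1 / (x0 : ℝ)) = 1 / (2 * (x0 * δ)) := by
    field_simp
  rw [h6]
  refine one_div_le_one_div_of_le (by positivity) ?_
  nlinarith [mul_pos hx0p hδ]

end Pool.Agent.P8H78.CF
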